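import Mathlib

set_option autoImplicit false

/-!
# Frustration parameters realised by non-equitable graph bipartitions

A value `α` in the open interval from `0` to `π / 2` is realisable if and only if the square of
its tangent is rational.

For `tan α ^ 2 = a / b` we use `μ₁ = 1`, `μ₂ = (a - 3 b) / (a + b)`, `r = - 3 (a + b)` and the
following graph. The first part consists of a clique `Y` on `a + b` vertices and of `4 a + 2`
disjoint cliques of size `2 (a + b) + 1`; the second part consists of `2 (a + b) + 1` disjoint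
cliques of size `4 a + 1`; all vertices of `Y` are adjacent to all other vertices.
-/

namespace Pool.Agent.Results.MP_7aff4e_co.RealisableSet

open Real

/-- The number of neighbours of the vertex `v` in the set `S`. -/
noncomputable def nb {V : Type} (G : SimpleGraph V) (S : Set V) (v : V) : ℕ :=
  (G.neighborSet v ∩ S).ncard

/-- The bipartition of the vertices into `S` and its complement is equitable. -/
def Equitable {V : Type} (G : SimpleGraph V) (S : Set V) : Prop :=
  (∀ i ∈ S, ∀ i' ∈ S, nb G S i = nb G S i' ∧ nb G Sᶜ i = nb G Sᶜ i') ∧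
  (∀ j ∈ Sᶜ, ∀ j' ∈ Sᶜ, nb G S j = nb G S j' ∧ nb G Sᶜ j = nb G Sᶜ j')

/-- The linear degree condition for the bipartition into `S₁ = S` and `S₂ = Sᶜ`. -/
def LinearDegree {V : Type} (G : SimpleGraph V) (S : Set V) (μ₁ μ₂ r : ℝ) : Prop :=
  (∀ i ∈ S, -(nb G S i : ℝ) + μ₁ * nb G Sᶜ i = r) ∧
  (∀ j ∈ Sᶜ, -(nb G Sᶜ j : ℝ) + μ₂ * nb G S j = r)

/-- The parameter `α(μ₁, μ₂)`. -/
noncomputable def param (μ₁ μ₂ : ℝ) : ℝ := arctan (√(4 - (μ₁ + μ₂) ^ 2) / (μ₁ - μ₂))

/-- `α` is realisable: it is the parameter of a non-equitable bipartition, into two nonempty parts,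
of a finite connected graph, satisfying the linear degree condition. -/
def Realisable (α : ℝ) : Prop :=
  ∃ (V : Type) (_ : Finite V) (G : SimpleGraph V) (S : Set V) (μ₁ μ₂ r : ℝ),
    G.Connected ∧ S.Nonempty ∧ Sᶜ.Nonempty ∧ ¬ Equitable G S ∧ LinearDegree G S μ₁ μ₂ r ∧
    |μ₁ + μ₂| < 2 ∧ μ₂ < μ₁ ∧ α = param μ₁ μ₂

/-! ### Rationality -/

/-- In the non-equitable case the parameters are rational: one part. -/
lemma rat_part {V : Type} (G : SimpleGraph V) (S : Set V) (μ r : ℝ)
    (h : ∀ i ∈ S, -(nb G S i : ℝ) + μ * nb G Sᶜ i = r)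
    (hne : ¬ ∀ i ∈ S, ∀ i' ∈ S, nb G S i = nb G S i' ∧ nb G Sᶜ i = nb G Sᶜ i') :
    (∃ q : ℚ, (q : ℝ) = μ) ∧ ∃ q : ℚ, (q : ℝ) = r := by
  push Not at hne
  obtain ⟨i, hi, i', hi', hne⟩ := hne
  have h1 := h i hi
  have h2 := h i' hi'
  have hd : (nb G Sᶜ i : ℝ) - nb G Sᶜ i' ≠ 0 := by
    intro h0
    have h3 : nb G Sᶜ i = nb G Sᶜ i' := by
      have : (nb G Sᶜ i : ℝ) = nb G Sᶜ i' := by linarith
      exact_mod_cast this
    have h4 : (nb G S i : ℝ) = nb G S i' := by
      rw [h3] at h1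
      linarith
    exact hne (by exact_mod_cast h4) h3
  have hμ : μ = (((nb G S i : ℚ) - nb G S i') / ((nb G Sᶜ i : ℚ) - nb G Sᶜ i') : ℚ) := by
    push_cast
    rw [eq_div_iff hd]
    linarith
  refine ⟨⟨_, hμ.symm⟩, ⟨-(nb G S i : ℚ) +
    (((nb G S i : ℚ) - nb G S i') / ((nb G Sᶜ i : ℚ) - nb G Sᶜ i')) * nb G Sᶜ i, ?_⟩⟩
  rw [← h1]
  push_cast
  push_cast at hμ
  rw [← hμ]

/-- A connected graph has an edge between the two parts. -/
lemma exists_cross {V : Type} (G : SimpleGraph V) (S : Set V) (hG : G.Connected)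
    (h1 : S.Nonempty) (h2 : Sᶜ.Nonempty) : ∃ i ∈ S, ∃ j ∈ Sᶜ, G.Adj i j := by
  obtain ⟨x, hx⟩ := h1
  obtain ⟨y, hy⟩ := h2
  obtain ⟨p⟩ := hG.preconnected x y
  obtain ⟨d, _, hd1, hd2⟩ := p.exists_boundary_dart S hx hy
  exact ⟨d.fst, hd1, d.snd, hd2, d.adj⟩

lemma nb_pos {V : Type} [Finite V] (G : SimpleGraph V) (S : Set V) (i j : V) (hj : j ∈ S)
    (h : G.Adj i j) : nb G S i ≠ 0 := by
  unfold nb
  have h0 : (G.neighborSet i ∩ S).Nonempty := ⟨j, h, hj⟩
  exact ((Set.ncard_pos (Set.toFinite _)).2 h0).ne'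

lemma rat_other {x y : ℕ} {μ r : ℝ} (hy : y ≠ 0) (h : -(x : ℝ) + μ * y = r)
    (hr : ∃ q : ℚ, (q : ℝ) = r) : ∃ q : ℚ, (q : ℝ) = μ := by
  obtain ⟨q, rfl⟩ := hr
  refine ⟨(q + x) / y, ?_⟩
  have : (y : ℝ) ≠ 0 := by exact_mod_cast hy
  push_cast
  field_simp
  linarith

lemma rational {V : Type} [Finite V] (G : SimpleGraph V) (S : Set V) (μ₁ μ₂ r : ℝ)
    (hG : G.Connected) (h1 : S.Nonempty) (h2 : Sᶜ.Nonempty) (hne : ¬ Equitable G S)
    (h : LinearDegree G S μ₁ μ₂ r) : (∃ q : ℚ, (q : ℝ) = μ₁) ∧ (∃ q : ℚ, (q : ℝ) = μ₂) := by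
  obtain ⟨i, hi, j, hj, hij⟩ := exists_cross G S hG h1 h2
  unfold Equitable at hne
  rw [not_and_or] at hne
  rcases hne with hne | hne
  · obtain ⟨k1, k2⟩ := rat_part G S μ₁ r h.1 hne
    exact ⟨k1, rat_other (nb_pos G S j i hi hij.symm) (h.2 j hj) k2⟩
  · have hne' : ¬ ∀ i ∈ Sᶜ, ∀ i' ∈ Sᶜ, nb G Sᶜ i = nb G Sᶜ i' ∧ nb G Sᶜᶜ i = nb G Sᶜᶜ i' := by
      intro h'
      apply hne
      intro a ha b hb
      have := h' a ha b hb
      rw [compl_compl] at this
      exact this.symm
    obtain ⟨k1, k2⟩ := rat_part G Sᶜ μ₂ r (by rw [compl_compl]; exact h.2) hne'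
    exact ⟨rat_other (nb_pos G Sᶜ i j hj hij) (h.1 i hi) k2, k1⟩

/-! ### The graph -/

/-- The vertices: the clique `Y`, the other cliques of the first part, the cliques of the second
part. -/
abbrev W (a b : ℕ) : Type :=
  Fin (a + b) ⊕ (Fin (4 * a + 2) × Fin (2 * (a + b) + 1)) ⊕
    (Fin (2 * (a + b) + 1) × Fin (4 * a + 1))

/-- Adjacency. -/
def adj (a b : ℕ) : W a b → W a b → Prop
  | .inl x, .inl y => x ≠ y
  | .inl _, .inr _ => True
  | .inr _, .inl _ => True
  | .inr (.inl x), .inr (.inl y) => x.1 = y.1 ∧ x.2 ≠ y.2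
  | .inr (.inl _), .inr (.inr _) => False
  | .inr (.inr _), .inr (.inl _) => False
  | .inr (.inr x), .inr (.inr y) => x.1 = y.1 ∧ x.2 ≠ y.2

/-- The graph. -/
def graph (a b : ℕ) : SimpleGraph (W a b) where
  Adj := adj a b
  symm := by
    refine ⟨?_⟩
    rintro (x | x | x) (y | y | y) h <;> simp_all [adj, eq_comm]
  loopless := by
    refine ⟨?_⟩
    rintro (x | x | x) h <;> simp_all [adj]

/-- The first part. -/
def part (a b : ℕ) : Set (W a b) := {v | ∀ z, v ≠ .inr (.inr z)}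

section counting

open Finset

open scoped Classical in
lemma nb_eq (a b : ℕ) (S : Set (W a b)) (v : W a b) :
    nb (graph a b) S v = #{y | adj a b v (.inl y) ∧ Sum.inl y ∈ S} +
      (#{y | adj a b v (.inr (.inl y)) ∧ Sum.inr (Sum.inl y) ∈ S} +
       #{y | adj a b v (.inr (.inr y)) ∧ Sum.inr (Sum.inr y) ∈ S}) := by
  have h : nb (graph a b) S v = ∑ w : W a b, if adj a b v w ∧ w ∈ S then 1 else 0 := by
    unfold nb
    rw [Set.ncard_eq_toFinset_card', Finset.card_eq_sum_ones, ← Finset.sum_filter]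
    refine Finset.sum_congr ?_ (fun _ _ => rfl)
    ext w
    simp [graph]
  rw [h, Fintype.sum_sum_type, Fintype.sum_sum_type]
  simp only [Finset.card_filter]

lemma card_row {m n : ℕ} (x : Fin m × Fin n) :
    #{y : Fin m × Fin n | x.1 = y.1 ∧ x.2 ≠ y.2} = n - 1 := by
  have h : ({y : Fin m × Fin n | x.1 = y.1 ∧ x.2 ≠ y.2} : Finset _) =
      ({x.1} : Finset (Fin m)) ×ˢ (({x.2} : Finset (Fin n))ᶜ) := by
    ext y
    rw [mem_filter, mem_product, mem_singleton, mem_compl, mem_singleton]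
    simp [eq_comm]
  rw [h, card_product, card_singleton, card_compl]
  simp

lemma card_ne {m : ℕ} (x : Fin m) : #{y : Fin m | x ≠ y} = m - 1 := by
  have h : ({y : Fin m | x ≠ y} : Finset _) = (({x} : Finset (Fin m))ᶜ) := by
    ext y
    simp [eq_comm]
  rw [h, card_compl]
  simp

variable (a b : ℕ)

@[simp] lemma mem1 (x) : (Sum.inl x : W a b) ∈ part a b := by intro z; simp
@[simp] lemma mem2 (x) : (Sum.inr (Sum.inl x) : W a b) ∈ part a b := by intro z; simp
@[simp] lemma mem3 (x) : (Sum.inr (Sum.inr x) : W a b) ∉ part a b := by intro h; exact h x rfl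

/-- Vertices of `Y`. -/
lemma nb_Y (x : Fin (a + b)) :
    nb (graph a b) (part a b) (.inl x) = (a + b - 1) + (4 * a + 2) * (2 * (a + b) + 1) ∧
    nb (graph a b) (part a b)ᶜ (.inl x) = (2 * (a + b) + 1) * (4 * a + 1) := by
  classical
  rw [nb_eq, nb_eq]
  constructor
  · simp only [adj, mem1, mem2, mem3, and_true, and_false, filter_false, card_empty, add_zero,
      filter_true, card_univ, Fintype.card_prod, Fintype.card_fin, true_and]
    rw [card_ne]
  · simp [adj]

/-- The other vertices of the first part. -/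
lemma nb_X (x : Fin (4 * a + 2) × Fin (2 * (a + b) + 1)) :
    nb (graph a b) (part a b) (.inr (.inl x)) = (a + b) + 2 * (a + b) ∧
    nb (graph a b) (part a b)ᶜ (.inr (.inl x)) = 0 := by
  classical
  rw [nb_eq, nb_eq]
  constructor
  · simp only [adj, mem1, mem2, mem3, and_true, and_false, filter_false, card_empty, add_zero,
      filter_true, card_univ, Fintype.card_prod, Fintype.card_fin, true_and]
    rw [card_row]
    simp
  · simp [adj]

/-- The vertices of the second part. -/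
lemma nb_Z (x : Fin (2 * (a + b) + 1) × Fin (4 * a + 1)) :
    nb (graph a b) (part a b) (.inr (.inr x)) = (a + b) ∧
    nb (graph a b) (part a b)ᶜ (.inr (.inr x)) = 4 * a := by
  classical
  rw [nb_eq, nb_eq]
  constructor
  · simp [adj]
  · simp only [adj, Set.mem_compl_iff, mem1, mem2, mem3, and_true, and_false, filter_false,
      card_empty, zero_add, not_true, not_false_iff]
    rw [card_row]
    simp

end counting

lemma connected (a b : ℕ) (ha : 0 < a) : (graph a b).Connected := by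
  have h0 : ∀ v : W a b, (graph a b).Reachable (.inl ⟨0, by omega⟩) v := by
    rintro (x | x)
    · by_cases h : (⟨0, by omega⟩ : Fin (a + b)) = x
      · rw [h]
      · have h' : (graph a b).Adj (.inl ⟨0, by omega⟩) (.inl x) := h
        exact h'.reachable
    · have h' : (graph a b).Adj (.inl ⟨0, by omega⟩) (.inr x) := trivial
      exact h'.reachable
  have : Nonempty (W a b) := ⟨.inl ⟨0, by omega⟩⟩
  exact ⟨fun u v => (h0 u).symm.trans (h0 v)⟩

lemma linear (a b : ℕ) (ha : 0 < a) : LinearDegree (graph a b) (part a b) 1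
    (((a : ℝ) - 3 * b) / (a + b)) (-3 * (a + b)) := by
  have hab : (a : ℝ) + b ≠ 0 := by positivity
  constructor
  · rintro (x | x | x) hx
    · rw [(nb_Y a b x).1, (nb_Y a b x).2]
      have h1 : ((a + b - 1 : ℕ) : ℝ) = a + b - 1 := by
        rw [Nat.cast_sub (by omega)]
        push_cast
        ring
      push_cast
      rw [h1]
      ring
    · rw [(nb_X a b x).1, (nb_X a b x).2]
      push_cast
      ring
    · exact absurd hx (mem3 a b x)
  · rintro (x | x | x) hx
    · exact absurd (mem1 a b x) hx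
    · exact absurd (mem2 a b x) hx
    · rw [(nb_Z a b x).1, (nb_Z a b x).2]
      push_cast
      field_simp
      ring

lemma not_equitable (a b : ℕ) (ha : 0 < a) : ¬ Equitable (graph a b) (part a b) := by
  intro h
  have h1 := (h.1 (.inl ⟨0, by omega⟩) (mem1 a b _) (.inr (.inl (⟨0, by omega⟩, ⟨0, by omega⟩)))
    (mem2 a b _)).2
  rw [(nb_Y a b _).2, (nb_X a b _).2] at h1
  have h2 : 0 < (2 * (a + b) + 1) * (4 * a + 1) := by positivity
  omega

/-! ### The theorem -/

/-- **The answer.** The realisable values `α` in the open interval from `0` to `π / 2` are exactly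
those for which the square of `tan α` is rational. -/
theorem result : {α : ℝ | α ∈ Set.Ioo 0 (π / 2) ∧ Realisable α} =
    {α : ℝ | α ∈ Set.Ioo 0 (π / 2) ∧ ∃ q : ℚ, tan α ^ 2 = q} := by
  ext α
  simp only [Set.mem_ofPred_eq]
  refine and_congr_right ?_
  intro hα
  constructor
  · rintro ⟨V, hV, G, S, μ₁, μ₂, r, hG, h1, h2, hne, hl, hs, hlt, rfl⟩
    obtain ⟨⟨q₁, rfl⟩, ⟨q₂, rfl⟩⟩ := rational G S μ₁ μ₂ r hG h1 h2 hne hl
    refine ⟨(4 - (q₁ + q₂) ^ 2) / (q₁ - q₂) ^ 2, ?_⟩
    unfold param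
    rw [tan_arctan, div_pow, sq_sqrt]
    · push_cast
      ring
    · have := sq_abs ((q₁ : ℝ) + q₂)
      have h0 := abs_nonneg ((q₁ : ℝ) + q₂)
      nlinarith
  · rintro ⟨q, hq⟩
    have htan : 0 < tan α := tan_pos_of_pos_of_lt_pi_div_two hα.1 hα.2
    have hq0 : (0 : ℝ) < q := by rw [← hq]; positivity
    have hq0' : 0 < q := by exact_mod_cast hq0
    obtain ⟨a, b, ha, hb, hab⟩ : ∃ a b : ℕ, 0 < a ∧ 0 < b ∧ (q : ℝ) = a / b := by
      refine ⟨q.num.toNat, q.den, ?_, q.den_pos, ?_⟩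
      · have := Rat.num_pos.2 hq0'
        omega
      · have h1 : ((q.num.toNat : ℤ) : ℝ) = q.num := by
          rw [Int.toNat_of_nonneg (Rat.num_pos.2 hq0').le]
        rw [Rat.cast_def]
        push_cast at h1
        rw [h1]
    have ha' : (0 : ℝ) < a := by exact_mod_cast ha
    have hb' : (0 : ℝ) < b := by exact_mod_cast hb
    have hab' : (0 : ℝ) < a + b := by positivity
    refine ⟨W a b, inferInstance, graph a b, part a b, 1, ((a : ℝ) - 3 * b) / (a + b),
      -3 * (a + b), connected a b ha, ⟨.inl ⟨0, by omega⟩, mem1 a b _⟩,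
      ⟨.inr (.inr (⟨0, by omega⟩, ⟨0, by omega⟩)), mem3 a b _⟩, not_equitable a b ha,
      linear a b ha, ?_, ?_, ?_⟩
    · have h1 : 1 + ((a : ℝ) - 3 * b) / (a + b) = 2 * (a - b) / (a + b) := by
        field_simp
        ring
      rw [h1, abs_lt]
      constructor
      · rw [lt_div_iff₀ hab']
        linarith
      · rw [div_lt_iff₀ hab']
        linarith
    · rw [div_lt_iff₀ hab']
      linarith
    · unfold param
      have h1 : (1 : ℝ) - ((a : ℝ) - 3 * b) / (a + b) = 4 * b / (a + b) := by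
        field_simp
        ring
      have h2 : (4 : ℝ) - (1 + ((a : ℝ) - 3 * b) / (a + b)) ^ 2 =
          (4 * b / (a + b)) ^ 2 * (tan α) ^ 2 := by
        rw [hq, hab]
        field_simp
        ring
      have h3 : 0 < 4 * (b : ℝ) / (a + b) := by positivity
      rw [h1, h2, ← mul_pow, sqrt_sq (by positivity), mul_div_cancel_left₀ _ h3.ne']
      rw [arctan_tan (by linarith [hα.1, pi_pos]) hα.2]

end Pool.Agent.Results.MP_7aff4e_co.RealisableSet
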